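import Pool.Agent.helper4.T7.SpecR
import Pool.Agent.helper46.T6L.SpecO

set_option autoImplicit false

/-!
# T7 (MP_16912e_nt), block SM: regular prime conductors by a second moment

Output: `SM_stmt` (from `RUB_stmt`, `STO_stmt` = the text of `TOT7_stmt`, `UBH_stmt`).  Notation: `Y₂ = R √N`, `S = Y Y₂`, `ϱ = S / N`.

IDEA.  A tuple `t` with `dis t = D p ^ 2` (`D` fundamental, `p ∤ Z Λ`) comes from an ideal `a` of the field of discriminant `D`, `a ^ 5 = (θ)`, `Y θ = p RR t`.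
So the label `(D, Z, |p RR t|)` depends only on `(D, a)`, and if two primes `p ≠ q` occur for the same label, then `q ∣ RR t` for the tuple `t` of `p`.
The number of tuples at scale `N` with `q ∣ RR t` is bounded by RUB, the number of labels by TOT7 at the scale `N / P ^ 2`; Cauchy-Schwarz.

RULES.  Row `t7:XXX` is a file `Pool/Agent/<seat>/T7/XXX.lean`: `import Pool.Agent.helper8.T7.SpecSM`, `set_option autoImplicit false`,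
`namespace Pool.Agent.T7`, the two open lines of this file, and the theorem line of the lock note.  Other rows only as hypotheses.
Auxiliary lemmas are prefixed `XXX_`.  No `convert`, `congr!`, `native_decide`, no double quotes.
-/

namespace Pool.Agent.T7

open Finset NumberField Pool.Agent.helper3.FT Pool.Agent.helper47.RA Pool.Agent.T5 Pool.Agent.T6 Pool.Agent.T6L
open Pool.Agent.helper26.T5 (nn LEMB LPR LAW LP LPA HLN HPR HSQ HID HCL HGA)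

/-! ## Interface -/

/-- **SM** (output): regular prime conductors in `(ϱ ^ (-1/2), ϱ ^ (-21/20)]` -/
def SM_stmt : Prop := ∃ η : ℝ, 0 < η ∧ η ≤ 1 / 100 ∧ ∀ κ R : ℝ, 0 < κ → κ ≤ 1 → 1 ≤ R → ∃ C N₀ : ℝ, 1 ≤ C ∧
  ∀ N Y : ℝ, N₀ ≤ N → Rg η N Y (R * √N) → ∀ F : Finset Tpl,
  (∀ t ∈ F, Cen κ N Y (R * √N) t ∧ ∃ (p : ℕ) (D₀ : ℤ), p.Prime ∧ 5 < p ∧ IsFund D₀ ∧ dis t = D₀ * (p : ℤ) ^ 2 ∧
    ¬ (p : ℤ) ∣ t.2.2.2 * lam t ∧ (Y * (R * √N) / N) ^ (-(1 / 2 : ℝ)) < p ∧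
    (p : ℝ) ≤ (Y * (R * √N) / N) ^ (-(21 / 20 : ℝ))) →
  (F.card : ℝ) ≤ C * (Y * (R * √N) / N) ^ (1 / 8 : ℝ) * (Y * (R * √N))

/-- the text of `TOT7_stmt` (block TOT7, helper88) -/
def STO_stmt : Prop := ∃ C N₀ : ℝ, 1 ≤ C ∧ ∀ N Y : ℝ, N₀ ≤ N → N ^ (0.395 : ℝ) ≤ Y → Y ≤ √N / 4 →
  ∑ D ∈ DN N, (cA D Y : ℝ) ≤ C * (Y * √N)

/-! ## Definitions -/

/-- the second part of the label -/
def lb (p : ℕ) (t : Tpl) : ℤ × ℤ := (t.2.2.2, |(p : ℤ) * RR t|)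

/-- `t` has the regular prime conductor `p` in `(P, 2 P]`, `dis t = D p ^ 2` -/
structure SB (N Y X P : ℝ) (t : Tpl) (p : ℕ) (D : ℤ) : Prop where
  tt : IsT t
  z1 : Y / 2 < t.2.2.2
  z2 : (t.2.2.2 : ℝ) ≤ Y
  l1 : 0 < lam t
  l2 : (lam t : ℝ) ≤ X
  d1 : N / 2 < -(dis t : ℝ)
  d2 : -(dis t : ℝ) ≤ N
  pr : p.Prime
  p5 : 5 < p
  p1 : P < p
  p2 : (p : ℝ) ≤ 2 * P
  fd : IsFund D
  ds : dis t = D * (p : ℤ) ^ 2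
  rg : ¬ (p : ℤ) ∣ t.2.2.2 * lam t

/-! ## Rows -/

/-- **SMC** (short-medium; Mathlib only).  Counting by Cauchy-Schwarz.
PROOF.  `V` = the image of `T` under `t ↦ (l t, c t)`; `#T ≤ B #V` (`Finset.card_eq_sum_card_fiberwise`).  For `v ∈ V` choose `s v ∈ T` with `(l (s v), c (s v)) = v`; `s` is injective.
For `i ∈ T.image l` let `V_i` be the `v ∈ V` with `v.1 = i`.  `#V = ∑_i #V_i`, so `(#V)² ≤ A ∑_i (#V_i)²` (`sq_sum_le_card_mul_sum_sq`), and `∑_i (#V_i)²` is the number of the pairs `(v, v') ∈ V × V` with `v.1 = v'.1`: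
`#V` pairs with `v = v'`, and for the others `v.2 ≠ v'.2`; the map `(v, v') ↦ (v'.2, s v)` is injective on them (`v' = (v.1, v'.2)`), `q = v'.2 ∈ T.image c`, and `s v` is in the set of the third hypothesis for `q` (`t' = s v'`).  So `∑_i (#V_i)² ≤ #V + M`, `M = ∑_q M q`.
With `W = #V`: `W² ≤ A (W + M)`, hence `W ≤ A + √(A M)` (otherwise `W (W - A) > (A + √(A M)) √(A M) ≥ A M`). -/
def SMC_stmt : Prop := ∀ (ι : Type) [DecidableEq ι] (T : Finset Tpl) (l : Tpl → ι) (c : Tpl → ℕ) (A B : ℝ) (M : ℕ → ℝ),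
  0 ≤ A → 0 ≤ B → (∀ q, 0 ≤ M q) → ((T.image l).card : ℝ) ≤ A →
  (∀ (i : ι) (q : ℕ), ∀ U : Finset Tpl, (∀ t ∈ U, t ∈ T ∧ l t = i ∧ c t = q) → (U.card : ℝ) ≤ B) →
  (∀ q ∈ T.image c, ∀ U : Finset Tpl, (∀ t ∈ U, t ∈ T ∧ c t ≠ q ∧ ∃ t' ∈ T, l t' = l t ∧ c t' = q) → (U.card : ℝ) ≤ M q) →
  (T.card : ℝ) ≤ B * (A + √(A * ∑ q ∈ T.image c, M q))

/-- **SMR** (short).  `p ∣ RR t`, `p ∤ Z` imply `p ∤ n`.
PROOF.  `k RR t = Z n² - m²` (`IsT.c2`, definition of `RR`).  If `p ∣ n`: `p ∣ m²`, `p ∣ m`; by `IsT.c1` `p ∣ Z k⁴ + m g k² - g² n²`, so `p ∣ Z k⁴`, so `p ∣ k`: against `IsT.co`. -/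
def SMR_stmt : Prop := ∀ (t : Tpl) (p : ℕ), IsT t → p.Prime → (p : ℤ) ∣ RR t → ¬ (p : ℤ) ∣ t.2.2.2 → ¬ p ∣ t.1.1

/-- **SMF** (short-medium; from `AELE_stmt`, `OGT_stmt`).  The tuples with given conductor and label.
PROOF.  `x = (z, r)`.  For `t ∈ F`: AELE with `f = p` gives elements with `Els Q p t α γ u v θ θ'`, `Y θ = p RR t`, so `|Y θ| = r`; `θ θ̄ = Z⁵`: from `e3`, `nα`, `nγ` (multiply `α² γ̄ = Λ² θ` by its conjugate): `(Z² Λ)² (Z Λ²) = Λ⁴ θ θ̄`, cancel `Λ⁴`.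
There are at most four `θ ∈ 𝓞 K` with `|Y θ| = r`, `θ θ̄ = z⁵`: `θ = x₁ + Y ω` (`Q.exists_re`), `(2 x₁ + t Y)² = D Y² + 4 z⁵ = D r² + 4 z⁵` (`Q.norm_form`), so `Y θ ∈ {r, -r}` and `2 x₁ + t Y` has at most two values; the two numbers determine `θ`.
For each of these `θ`: `OGT_stmt` with `f = p` (`z.toNat`): `7 ^ 1 * (1 + 2 π X / ((sl p z) √|D|))`, and `sl p z ≥ rad p = p` (`Nat.dvd_lcm_left`, positive). -/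
def SMF_stmt : Prop := ∀ (K : Type) [Field K] [NumberField K] (Q : QF K) (p : ℕ) (x : ℤ × ℤ) (X : ℝ),
  Q.D < 0 → p.Prime → 5 < p → 0 < X → ∀ F : Finset Tpl,
  (∀ t ∈ F, IsT t ∧ 0 < t.2.2.2 ∧ 0 < lam t ∧ (lam t : ℝ) ≤ X ∧ dis t = Q.D * (p : ℤ) ^ 2 ∧ lb p t = x) →
  (F.card : ℝ) ≤ 28 * (1 + 2 * Real.pi * X / (p * √|(Q.D : ℝ)|))

/-- **SMU** (short-medium; from `ASUR_stmt`, `ADFA_stmt`, `APPR_stmt`).  The labels of one field.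
PROOF.  For `x ∈ L` choose `t, p`.  ASUR with `f = p` (the only prime dividing `p` is `p`) gives `Dat Q a α γ p t`; ADFA: `a ≠ ⊥`, `Prim a`, `a ^ 5` principal; `absNorm a = Z ∈ (Y/2, Y]` (`Dat.z`); `Z > Y/2 ≥ 1`, and `a` is not principal (APPR: otherwise `absNorm a = 1`, as `4 Z ≤ 4 Y < -D`).  So `a ∈ IA K Y`, which is finite
(`UM_fin`, `Pool/Agent/helper29/T5/UM.lean`, or `Ideal.finite_setOf_absNorm_le`).  `x ↦ a` is injective on `L`: let `a = a'`.  `Z = absNorm a = Z'`.  `Dat.full` gives `F, F'` with `(F.α) = a ^ 5 = (F'.α)` (`F.iα`), so `F'.α = ε F.α` with a unit `ε`, `ε = ± 1` as `D < -4` (`AGEX_unit`, `Pool/Agent/helper92/T5/AGEX.lean`, copy it),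
so `p' RR t' = Y F'.α = ± Y F.α = ± p RR t`. -/
def SMU_stmt : Prop := ∀ (K : Type) [Field K] [NumberField K] (Q : QF K) (Y : ℝ), Q.D < -4 → 4 * Y < -(Q.D : ℝ) → 2 ≤ Y →
  ∀ L : Finset (ℤ × ℤ), (∀ x ∈ L, ∃ (t : Tpl) (p : ℕ), p.Prime ∧ IsT t ∧ Y / 2 < t.2.2.2 ∧ (t.2.2.2 : ℝ) ≤ Y ∧
    0 < lam t ∧ dis t = Q.D * (p : ℤ) ^ 2 ∧ ¬ (p : ℤ) ∣ t.2.2.2 * lam t ∧ lb p t = x) →
  L.card ≤ (IA K Y).ncard

/-- **SML** (short-medium; from SMU and `SFA_stmt`).  The labels of all fields.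
PROOF.  Sort `L` by `D = x.1`.  `SB`: `dis t = D p²`, `P < p ≤ 2P`, `N/2 < -D p² ≤ N`: `N/(8P²) < -D ≤ N/p² < N/P²`.  So `D ∈ DN (N/P²/2^i)` for some `i < 3` (`IsFund D`; `D ≤ -1`, `-D ≤ ⌊..⌋`).  `-D > N/(8P²) > 4 (Y + 1)`, so `D < -4` and `4 Y < -D`.
For `D` in `DN (..)` let `E` be the field of `cA` (`h.some`, `h : Nonempty (Fld D)` by SFA (3)): `E.Q.D = D` (`E.hD`), `cA D Y = (IA E.K Y).ncard`.  SMU for the set of the `x.2`, `x ∈ L`, `x.1 = D` (injective).  Sum over `D` in the union of the three `DN`. -/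
def SML_stmt : Prop := ∀ N Y X P : ℝ, 1 ≤ P → 2 ≤ Y → 32 * (Y + 1) * P ^ 2 < N → ∀ L : Finset (ℤ × ℤ × ℤ),
  (∀ x ∈ L, ∃ (t : Tpl) (p : ℕ), SB N Y X P t p x.1 ∧ x.2 = lb p t) →
  (L.card : ℝ) ≤ ∑ i ∈ range 3, ∑ D ∈ DN (N / P ^ 2 / 2 ^ i), (cA D Y : ℝ)

/-- **SXU** (short-medium; from `UBH_stmt`, the existence of `h`, `OCN_stmt`, `HGA`).  Trivial bound for all `Y`.
PROOF.  `h` with `IsH h`.  For `D ∈ DN N` let `E` be the field of `cA` (if there is none `cA = 0`).  `S` = the finset of `IA E.K Y` (finite: `UM_fin`, `Pool/Agent/helper29/T5/UM.lean`): its elements are nonzero, not principal, with principal fifth power; OCN with `B = 2 + 2 π Y/√|D|`: for a subset in one class HGA with `f = 1`, `b = 1`, `A = ⊤`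
(literally the part of `Pool/Agent/helper4/T6L/OGD.lean` headed `(1) the ideals`).  So `cA D Y ≤ (h D) (2 + 2 π Y/√|D|)` (`E.fin`, `E.dK`), `√|D| ≥ √(N/2)`: `≤ 10 (h D) (1 + Y/√N)`.  UBH for `M = ⌊N⌋₊ + 1 ≤ 2 N`, `s = DN N`: `∑ h D ≤ C₀ M ≤ 2 C₀ N`. -/
def SXU_stmt : Prop := ∃ C : ℝ, 1 ≤ C ∧ ∀ N Y : ℝ, 1 ≤ N → 0 < Y → ∑ D ∈ DN N, (cA D Y : ℝ) ≤ C * (1 + Y / √N) * N

/-- **SMB** (short-medium; from SML, SXU, STO).  The number of labels.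
PROOF.  `C₁, N₁` from STO, `C₂` from SXU.  For `N` large: `2 ≤ Y`, `32 (Y + 1) P² ≤ 32 (√N + 1) N^(1/25) < N`.  SML; let `M = N/P²/2^i`, `i < 3`: `N/(4P²) ≤ M ≤ N/P²`.
(a) `8 P Y ≤ √N`: `√M/4 ≥ √N/(8P) ≥ Y`, `M ≥ N^(24/25)/4 ≥ N₁`, `M^0.395 ≤ N^0.395 ≤ Y`: STO: `C₁ Y √M ≤ C₁ Y √N/P`.  (b) `8 P Y > √N`: `M ≥ 1`, SXU: `C₂ (M + Y √M) ≤ C₂ (N/P² + Y √N/P)` (`M/√M = √M`), and `N/P² = (√N/P)(√N/P) ≤ 8 Y √N/P`.  So `C = 3 (C₁ + 9 C₂)`. -/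
def SMB_stmt : Prop := ∃ C N₀ : ℝ, 1 ≤ C ∧ ∀ N Y X P : ℝ, N₀ ≤ N → N ^ (0.4 : ℝ) ≤ Y → Y ≤ √N → 1 ≤ P → P ≤ N ^ (1 / 50 : ℝ) →
  ∀ L : Finset (ℤ × ℤ × ℤ), (∀ x ∈ L, ∃ (t : Tpl) (p : ℕ), SB N Y X P t p x.1 ∧ x.2 = lb p t) →
  (L.card : ℝ) ≤ C * (Y * √N / P)

open Classical in
/-- **SMP** (medium; from `RUB_stmt`, SMC, SMR, SMF, `SFA_stmt`).  One dyadic block.
PROOF.  `η` from RUB, `C₀, N₀` from RUB for `κ`; `N ≥ 1`.  `S = Y (R √N) ≥ 0`, `ϱ = S/N`.  For `t ∈ F` choose `c t = p`, `D t`; `l t = (D t, lb (c t) t)`.  SMC with `A`, `B = 280 R`, `M q = C₀ S (1/q + ϱ^(3/2) q^(3/4) (1 + q ϱ))`: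
(1) `(F.image l).card ≤ A`: the hypothesis.  (2) a fibre: `D, p, x` fixed; a field `E : Fld D` exists (SFA (3); `D < 0` as `dis t < 0`); SMF for `E.Q` (`E.hD`), `X = R √N`, and `p √|D| = √(- dis t) ≥ √(N/2)` (the fibre is not empty): `28 (1 + 2 π R √N/√(N/2)) ≤ 28 (1 + 9 R) ≤ 280 R`.
(3) `q = c t'` with `l t' = l t`, `q ≠ c t =: p`: `|q RR t'| = |p RR t|`, so `q ∣ p RR t`, `q ∣ RR t` (`p ≠ q` primes); `Z t = Z t'` and `q ∤ Z t'` (`SB.rg`), so `q ∤ n` (SMR): RUB for `q ≤ 2 P ≤ N^η`.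
`∑_q M q`: at most `P + 1 ≤ 2 P` natural numbers `q ∈ (P, 2P]`: `≤ C₀ S (2 + 2 P ϱ^(3/2) (2P)^(3/4) (1 + 2 P ϱ)) ≤ 8 C₀ S (1 + ϱ^(3/2) P^(7/4) (1 + P ϱ))`.  `C = 280 R √(8 C₀) + 280 R`. -/
def SMP_stmt : Prop := ∃ η : ℝ, 0 < η ∧ η ≤ 1 / 100 ∧ ∀ κ R : ℝ, 0 < κ → κ ≤ 1 → 1 ≤ R → ∃ C N₀ : ℝ, 1 ≤ C ∧
  ∀ N Y P A : ℝ, N₀ ≤ N → Rg η N Y (R * √N) → 1 ≤ P → 2 * P ≤ N ^ η → 0 ≤ A →
  (∀ L : Finset (ℤ × ℤ × ℤ), (∀ x ∈ L, ∃ (t : Tpl) (p : ℕ), SB N Y (R * √N) P t p x.1 ∧ x.2 = lb p t) → (L.card : ℝ) ≤ A) →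
  ∀ F : Finset Tpl, (∀ t ∈ F, Cen κ N Y (R * √N) t ∧ ∃ (p : ℕ) (D : ℤ), SB N Y (R * √N) P t p D) →
  (F.card : ℝ) ≤ C * (A + √(A * ((Y * (R * √N)) *
    (1 + (Y * (R * √N) / N) ^ (3 / 2 : ℝ) * P ^ (7 / 4 : ℝ) * (1 + P * (Y * (R * √N) / N))))))

/-- **SMD** (short-medium, numerical; from SMP, SMB).  The sum over the dyadic blocks.
PROOF.  `η₁` from SMP, `η = η₁/4`; `C₁` from SMP for `κ, R`, `C₂` from SMB.  `S = Y R √N`, `ϱ = S/N`; `Rg η` gives `N^(-η) ≤ ϱ ≤ 1`, `Y ≤ √N/R ≤ √N`, `Y ≥ R √N N^(-η) ≥ N^(0.4)`; `Rg η` implies `Rg η₁` (`N ≥ 1`).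
For `t ∈ F` with its `p`: `p ≥ 7`; let `2^j < p ≤ 2^(j+1)`; `P = 2^j` satisfies `ϱ^(-1/2)/2 < P < ϱ^(-21/20) ≤ N^(21 η/20)`, so `2 P ≤ N^η₁`, `P ≤ N^(1/50)` for large `N`.  `Cen` gives `SB N Y (R √N) P t p D₀` (`lam t > 0` from `l1`; `lam t ≤ R √N` from `l2`, `√(-dis t) ≤ √N`).
SMB: `A = C₂ Y √N/P ≤ C₂ S/P`.  SMP: at most `C₁ (C₂ S/P + √(C₂ S²/P · (1 + ϱ^(3/2) P^(7/4) (1 + P ϱ)))) ≤ C₁ C₂ S (1/P + P^(-1/2) + ϱ^(3/4) P^(3/8) √(1 + P ϱ))`;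
`1/P ≤ 2 ϱ^(1/2)`, `P^(-1/2) ≤ √2 ϱ^(1/4)`, `P ϱ ≤ ϱ^(-1/20)`, so `√(1 + P ϱ) ≤ √2 ϱ^(-1/40)` and `ϱ^(3/4) P^(3/8) ϱ^(-1/40) ≤ ϱ^(3/4 - 63/160 - 1/40) ≤ ϱ^(1/4)`: at most `5 C₁ C₂ S ϱ^(1/4)` for every `j`.
The number of `j` is at most `1 + log (ϱ^(-21/20))/log 2 ≤ C₃ ϱ^(-1/8)`. -/
def SMD_stmt : Prop := SM_stmt

end Pool.Agent.T7
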