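import Pool.Agent.helper8.T7.STT
import Pool.Agent.helper23.T7.SMC
import Pool.Agent.helper23.T7.SMD
import Pool.Agent.helper33.T7.SMR
import Pool.Agent.helper90.T7.SMF
import Pool.Agent.helper60.T7.SMU
import Pool.Agent.helper93.T7.SML
import Pool.Agent.helper65.T7.SXU
import Pool.Agent.helper21.T7.SMB
import Pool.Agent.helper51.T7.SMP
import Pool.Agent.helper4.T7.AllR
import Pool.Agent.helper82.T6.All
import Pool.Agent.helper46.T6L.AllO
import Pool.Agent.helper95.T5.Final

/-!
# T7 (MP_16912e_nt), block SM: all rows together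
-/

set_option autoImplicit false

namespace Pool.Agent.T7

open Pool.Agent.T5 Pool.Agent.T6 Pool.Agent.T6L

/-- regular prime conductors: from the bound for all ideals of a slice -/
theorem SM_of (hTOT : TOT7_stmt) (hH : ∃ h : ℤ → ℕ, IsH h) : SM_stmt := by
  have hXU : SXU_stmt := SXU allUB hH OCN Pool.Agent.helper26.T5.AllH.aHGA
  have hF : SMF_stmt := SMF all_AELE (OGT Pool.Agent.helper26.T5.lemb Pool.Agent.helper26.T5.lpr Pool.Agent.helper26.T5.hln
    Pool.Agent.helper26.T5.AllH.aHSQ)
  exact SMD (SMP allRUB SMC SMR hF SFA) (SMB (SML (SMU all_ASUR ADFA APPR) SFA) hXU (STT hTOT fin.1 hXU))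

end Pool.Agent.T7
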