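import Pool.Agent.helper85.T7.SpecS

/-!
# Row LC7 of T7 (MP_16912e_nt): large content or large greatest common divisor
-/

set_option autoImplicit false

namespace Pool.Agent.T7

open Finset NumberField Pool.Agent.helper3.FT Pool.Agent.helper47.RA Pool.Agent.T5 Pool.Agent.T6

theorem LC7 (hLG7 : LG7_stmt) : LC7_stmt := by
  classical
  intro η hη
  obtain ⟨δ, C, N₀, hδ, hC, hL⟩ := hLG7 η hη
  refine ⟨δ, hδ, ?_⟩
  intro w hw ε hε
  have hA0 : (0 : ℝ) < 4 / ε ^ 2 := by positivity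
  have hB0 : (0 : ℝ) ≤ (2 * C / ε) ^ 2 := by positivity
  refine ⟨4 / ε ^ 2 + 1, (2 * C / ε) ^ 2 + 1, max N₀ 1, by linarith, by linarith, ?_⟩
  intro K _ _ Q N Y Y₂ l a hN hD1 hD2 hYN hY2 hY2' hl hAl ha hne F hF
  have hN0 : N₀ ≤ N := (le_max_left _ _).trans hN
  have hN1 : 1 ≤ N := (le_max_right _ _).trans hN
  have hNp : 0 < N := by linarith
  have hsN : 0 < √N := Real.sqrt_pos.2 hNp
  have hDneg : (Q.D : ℝ) < 0 := by linarith
  have hDz : Q.D < 0 := by exact_mod_cast hDneg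
  have habs : √|(Q.D : ℝ)| = √(-(Q.D : ℝ)) := by rw [abs_of_neg hDneg]
  have hs : 0 < √(-(Q.D : ℝ)) := Real.sqrt_pos.2 (by linarith)
  have hY2p : 0 < Y₂ := lt_of_lt_of_le (mul_pos (by linarith) hsN) hY2
  have hB : 0 < Y₂ / √N := div_pos hY2p hsN
  have hBB : (2 * C / ε) ^ 2 + 1 ≤ Y₂ / √N := by rwa [le_div_iff₀ hsN]
  have hT : 0 < Y₂ * √(-(Q.D : ℝ)) / √N := by positivity
  have hNE : Pool.Agent.helper26.T5.NE Q a l := by
    intro α hα hα0
    by_contra hcon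
    exact hne ⟨ha, α, hα, hα0, not_lt.1 hcon⟩
  have hwR : (0 : ℝ) < w := by
    have : 0 < w := by omega
    exact_mod_cast this
  -- not content one
  have h1 := Pool.Agent.helper26.T5.AllL.aLI K Q a w l (Y₂ * √(-(Q.D : ℝ)) / √N) hDz ha.2.1 ha.1 (by omega) hl hT hNE
    (F.filter (fun α => ¬ Pool.Agent.helper26.T5.Cont1 a α)) (by
      intro α hα
      obtain ⟨hαF, hα1⟩ := Finset.mem_filter.1 hα
      exact ⟨(hF α hαF).1, (hF α hαF).2.1, hα1⟩)
  have h2 : ((F.filter (fun α => ¬ Pool.Agent.helper26.T5.Cont1 a α)).card : ℝ) ≤ (10 / w + ε / 2) * (Y₂ / √N) := by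
    refine h1.trans ?_
    have e1 : 2 * Real.pi * (Y₂ * √(-(Q.D : ℝ)) / √N) / (w * √|(Q.D : ℝ)|) = 2 * Real.pi / w * (Y₂ / √N) := by
      rw [habs]
      field_simp
    have e2 : √(Y₂ * √(-(Q.D : ℝ)) / √N / l) ≤ ε / 2 * (Y₂ / √N) := by
      apply Real.sqrt_le_iff.2
      refine ⟨by positivity, ?_⟩
      rw [div_le_iff₀ hl]
      have h3 : Y₂ * √(-(Q.D : ℝ)) / √N ≤ Y₂ := by
        rw [div_le_iff₀ hsN]
        exact mul_le_mul_of_nonneg_left (Real.sqrt_le_sqrt hD2) hY2p.le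
      refine h3.trans ?_
      have h4 : 4 / ε ^ 2 * N ≤ l * Y₂ := by
        refine le_trans ?_ hAl
        have : 0 ≤ 1 * N := by linarith
        nlinarith
      have h5 : N = √N * √N := (Real.mul_self_sqrt hNp.le).symm
      have h6 : (ε / 2 * (Y₂ / √N)) ^ 2 * l = ε ^ 2 / 4 * (l * Y₂) * Y₂ / N := by
        rw [mul_pow, div_pow, div_pow, sq (√N), ← h5]
        ring
      rw [h6, le_div_iff₀ hNp]
      have h7 : N ≤ ε ^ 2 / 4 * (l * Y₂) := by
        have h8 : ε ^ 2 / 4 * (4 / ε ^ 2 * N) = N := by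
          field_simp
        rw [← h8]
        exact mul_le_mul_of_nonneg_left h4 (by positivity)
      calc Y₂ * N ≤ Y₂ * (ε ^ 2 / 4 * (l * Y₂)) := mul_le_mul_of_nonneg_left h7 hY2p.le
        _ = ε ^ 2 / 4 * (l * Y₂) * Y₂ := by ring
    have e3 : 2 * Real.pi / w * (Y₂ / √N) ≤ 10 / w * (Y₂ / √N) := by
      refine mul_le_mul_of_nonneg_right ?_ hB.le
      refine div_le_div_of_nonneg_right ?_ hwR.le
      have := Real.pi_lt_four
      linarith
    rw [e1]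
    calc √(Y₂ * √(-(Q.D : ℝ)) / √N / l) + 2 * Real.pi / w * (Y₂ / √N) ≤ ε / 2 * (Y₂ / √N) + 10 / w * (Y₂ / √N) :=
          add_le_add e2 e3
      _ = (10 / w + ε / 2) * (Y₂ / √N) := by ring
  -- content one
  have h3 : ((F.filter (fun α => Pool.Agent.helper26.T5.Cont1 a α)).card : ℝ) ≤ ε / 2 * (Y₂ / √N) := by
    have h4 := hL K Q N Y Y₂ a hN0 hD1 hD2 hYN (by
        refine le_trans ?_ hY2
        have : (1 : ℝ) ≤ (2 * C / ε) ^ 2 + 1 := by linarith
        nlinarith) hY2' ha (F.filter (fun α => Pool.Agent.helper26.T5.Cont1 a α)) (by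
      intro α hα
      obtain ⟨hαF, hα1⟩ := Finset.mem_filter.1 hα
      obtain ⟨g1, -, γ, g2, g3, g4⟩ := hF α hαF
      refine ⟨g1, γ, ⟨ha.1, ha.2.1, g1.1, g1.2.1, g2, g3, hα1⟩, ?_⟩
      rcases g4 with ⟨p, hp, -, hpd⟩ | g4
      · exact absurd hpd (hα1 p hp)
      · exact g4)
    refine h4.trans ?_
    have h5 : 2 * C / ε ≤ √(Y₂ / √N) := by
      apply Real.le_sqrt_of_sq_le
      linarith
    have h6 : √(Y₂ / √N) * √(Y₂ / √N) = Y₂ / √N := Real.mul_self_sqrt hB.le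
    have h7 : C ≤ ε / 2 * √(Y₂ / √N) := by
      have h8 : ε / 2 * (2 * C / ε) = C := by field_simp
      rw [← h8]
      exact mul_le_mul_of_nonneg_left h5 (by positivity)
    calc C * √(Y₂ / √N) ≤ ε / 2 * √(Y₂ / √N) * √(Y₂ / √N) := mul_le_mul_of_nonneg_right h7 (Real.sqrt_nonneg _)
      _ = ε / 2 * (Y₂ / √N) := by rw [mul_assoc, h6]
  have h4 : F.card = (F.filter (fun α => Pool.Agent.helper26.T5.Cont1 a α)).card +
      (F.filter (fun α => ¬ Pool.Agent.helper26.T5.Cont1 a α)).card :=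
    (Finset.card_filter_add_card_filter_not _).symm
  rw [h4]
  push_cast
  calc ((F.filter (fun α => Pool.Agent.helper26.T5.Cont1 a α)).card : ℝ) +
      ((F.filter (fun α => ¬ Pool.Agent.helper26.T5.Cont1 a α)).card : ℝ) ≤
        ε / 2 * (Y₂ / √N) + (10 / w + ε / 2) * (Y₂ / √N) := add_le_add h3 h2
    _ = (10 / w + ε) * (Y₂ / √N) := by ring

end Pool.Agent.T7
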