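import Pool.Agent.helper8.T7.SpecSM
import Pool.Agent.helper85.T7.Defs

/-!
# T7 (MP_16912e_nt), block SM: `STO_stmt` from `TOT7_stmt`, the slices of T5 and the trivial bound
-/

set_option autoImplicit false

namespace Pool.Agent.T7

open Finset NumberField Pool.Agent.helper3.FT Pool.Agent.helper47.RA Pool.Agent.T5 Pool.Agent.T6 Pool.Agent.T6L
open Pool.Agent.helper26.T5 (nn LEMB LPR LAW LP LPA HLN HPR HSQ HID HCL HGA)

theorem STT (hTOT : TOT7_stmt) (hSLU : ∀ δ : ℝ, 0 < δ → δ ≤ 1 / 10 → SLU_stmt δ) (hSXU : SXU_stmt) : STO_stmt := by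
  obtain ⟨δ, C, κ₀, N₀, hδ, hC, hκ, hT⟩ := hTOT
  obtain ⟨C₂, hC₂, hX⟩ := hSXU
  have hδ' : 0 < min δ (1 / 10) := lt_min hδ (by norm_num)
  obtain ⟨N₁, hS⟩ := hSLU (min δ (1 / 10)) hδ' (min_le_right _ _) 1 one_pos
  have h3 : 0 ≤ 2 * C₂ / κ₀ := by positivity
  refine ⟨|c0 + 1| + C + 2 * C₂ / κ₀, max 1 (max N₀ N₁), ?_, ?_⟩
  · have := abs_nonneg (c0 + 1)
    linarith
  intro N Y hN hY1 hY2
  have hN1 : 1 ≤ N := (le_max_left _ _).trans hN
  have hN0 : N₀ ≤ N := (le_max_left _ _).trans ((le_max_right _ _).trans hN)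
  have hN2 : N₁ ≤ N := (le_max_right _ _).trans ((le_max_right _ _).trans hN)
  have hNp : 0 < N := by linarith
  have hsN : 0 < √N := Real.sqrt_pos.2 hNp
  have hY0 : 0 < Y := lt_of_lt_of_le (Real.rpow_pos_of_pos hNp _) hY1
  have hYN : 0 ≤ Y * √N := by positivity
  have hmono : ∀ a : ℝ, a ≤ |c0 + 1| + C + 2 * C₂ / κ₀ → a * (Y * √N) ≤ (|c0 + 1| + C + 2 * C₂ / κ₀) * (Y * √N) :=
    fun a ha => mul_le_mul_of_nonneg_right ha hYN
  rcases le_total Y (N ^ (1 / 2 - min δ (1 / 10))) with h | h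
  · refine (hS N Y hN2 ?_ h).trans (hmono _ ?_)
    · refine le_trans ?_ hY1
      exact Real.rpow_le_rpow_of_exponent_le hN1 (by norm_num)
    · have := le_abs_self (c0 + 1)
      linarith
  · rcases le_total Y (κ₀ * √N) with h' | h'
    · refine (hT N Y hN0 ?_ h').trans (hmono _ ?_)
      · refine le_trans ?_ h
        exact Real.rpow_le_rpow_of_exponent_le hN1 (by have := min_le_left δ (1 / 10 : ℝ); linarith)
      · have := abs_nonneg (c0 + 1)
        linarith
    · refine (hX N Y hN1 hY0).trans (le_trans ?_ (hmono (2 * C₂ / κ₀) ?_))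
      · have h4 : Y / √N ≤ 1 := by
          rw [div_le_one hsN]
          linarith
        have h5 : N = √N * √N := (Real.mul_self_sqrt hNp.le).symm
        calc C₂ * (1 + Y / √N) * N ≤ C₂ * 2 * N := by
              refine mul_le_mul_of_nonneg_right (mul_le_mul_of_nonneg_left (by linarith) (by linarith)) hNp.le
          _ = 2 * C₂ / κ₀ * (κ₀ * √N * √N) := by
              rw [mul_assoc κ₀, ← h5]
              field_simp
          _ ≤ 2 * C₂ / κ₀ * (Y * √N) := by
              refine mul_le_mul_of_nonneg_left ?_ h3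
              exact mul_le_mul_of_nonneg_right h' hsN.le
      · have := abs_nonneg (c0 + 1)
        linarith

end Pool.Agent.T7
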